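import Pool.Agent.Helper16_XQ.StmtD
import Pool.Agent.Helper96_AEU.DeathP

/-!
Squad XQ (MP_5b0138_an), Part D, module CLX: the area of a cell of four lines.
-/

set_option autoImplicit false

namespace Pool.Agent.XQ.H99

open MeasureTheory Set Filter Topology Pool.Agent.H62T Pool.Agent.AEU Pool.Agent.XQ
open Pool.Agent.H16F (Sublin ind)
open Pool.Agent.H96A (Q Lf Simple bs AA A3 zz IsQ)
open Pool.Agent.AEU.H96 (nu nH nh)

/-- the sign -/
noncomputable def ep (c : HP → ℝ) (s : HP) : ℝ := if 0 < c s then 1 else -1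

theorem ep_sq (c : HP → ℝ) (s : HP) : ep c s * ep c s = 1 := by
  unfold ep; split_ifs <;> norm_num

theorem ep_ne (c : HP → ℝ) (s : HP) : ep c s ≠ 0 := by
  unfold ep; split_ifs <;> norm_num

theorem ep_mul (c : HP → ℝ) (s : HP) : ep c s * c s = |c s| := by
  unfold ep
  split_ifs with h
  · rw [abs_of_pos h, one_mul]
  · rw [abs_of_nonpos (not_lt.1 h)]; ring

theorem ep_abs (c : HP → ℝ) (s : HP) : ep c s * |c s| = c s := by
  rw [← ep_mul, ← mul_assoc, ep_sq, one_mul]

/-- the reflected half-plane -/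
noncomputable def ph (c : HP → ℝ) (s : HP) : HP := (((-ep c s : ℝ) : ℂ) * s.1, -ep c s * s.2)

theorem ip_ph (c : HP → ℝ) (s : HP) (x : ℂ) : ip (ph c s).1 x = -ep c s * ip s.1 x := by
  unfold ph ip
  simp only [Complex.re_ofReal_mul, Complex.im_ofReal_mul]
  ring

theorem dt_ph (c : HP → ℝ) (s t : HP) :
    dt (ph c s).1 (ph c t).1 = ep c s * ep c t * dt s.1 t.1 := by
  unfold ph dt
  simp only [Complex.re_ofReal_mul, Complex.im_ofReal_mul]
  ring

variable {F : Finset HP} {c : HP → ℝ}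

theorem ph_inj (hn : Np F) {s t : HP} (hs : s ∈ F) (ht : t ∈ F) (h : ph c s = ph c t) :
    s = t := by
  by_contra hne
  apply hn s hs t ht hne
  have h1 := dt_ph c s t
  rw [h] at h1
  have h2 : dt (ph c t).1 (ph c t).1 = 0 := by unfold dt; ring
  rw [h2] at h1
  exact (mul_eq_zero.1 h1.symm).resolve_left (mul_ne_zero (ep_ne _ _) (ep_ne _ _))

theorem ph_injn (hn : Np F) {s t : HP} (hs : s ∈ F) (ht : t ∈ F) (h : (ph c s).1 = (ph c t).1) :
    s = t := by
  by_contra hne
  apply hn s hs t ht hne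
  have h1 := dt_ph c s t
  rw [h] at h1
  have h2 : dt (ph c t).1 (ph c t).1 = 0 := by unfold dt; ring
  rw [h2] at h1
  exact (mul_eq_zero.1 h1.symm).resolve_left (mul_ne_zero (ep_ne _ _) (ep_ne _ _))

open Classical in
/-- the reflected polygon -/
noncomputable def PF (F : Finset HP) (c : HP → ℝ) : Finset HP := F.image (ph c)

open Classical in
/-- the reflected body -/
noncomputable def hF (F : Finset HP) (c : HP → ℝ) (h : ℂ → ℝ) (w : ℂ) : ℝ :=
  ∑ s ∈ F, if w = (ph c s).1 then -ep c s * h s.1 else 0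

theorem hF_ph (hn : Np F) (h : ℂ → ℝ) {s : HP} (hs : s ∈ F) :
    hF F c h (ph c s).1 = -ep c s * h s.1 := by
  classical
  unfold hF
  rw [Finset.sum_eq_single s]
  · rw [if_pos rfl]
  · intro t ht hts
    rw [if_neg]
    intro e
    exact hts (ph_injn hn ht hs e.symm)
  · intro h1; exact absurd hs h1

theorem mem_PF {t : HP} : t ∈ PF F c ↔ ∃ s ∈ F, ph c s = t := by
  classical
  unfold PF
  exact Finset.mem_image

theorem card_PF (hn : Np F) : (PF F c).card = F.card := by
  classical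
  unfold PF
  exact Finset.card_image_of_injOn fun s hs t ht e => ph_inj hn hs ht e

theorem noTie_PF (hc : F.card = 4) (hn : Np F) {h : ℂ → ℝ} (ht : NoTie F h) :
    NoTie (PF F c) (hF F c h) := by
  intro σ x hσ T hT hT4
  have hTe : T = PF F c := Finset.eq_of_subset_of_card_le hT (by rw [card_PF hn, hc, hT4])
  obtain ⟨s, hs, hne⟩ := ht σ x hσ F (Finset.Subset.refl F) hc
  refine ⟨ph c s, ?_, ?_⟩
  · rw [hTe, mem_PF]; exact ⟨s, hs, rfl⟩
  · rw [hF_ph hn h hs, ip_ph]
    intro e
    apply hne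
    have e2 : -ep c s * (σ * h s.1 + ip s.1 x) = -ep c s * s.2 := by
      rw [← show (ph c s).2 = -ep c s * s.2 from rfl, ← e]; ring
    exact mul_left_cancel₀ (neg_ne_zero.2 (ep_ne c s)) e2

theorem gen_PF (h4 : F.card = 4) (hn : Np F) (hc : ∀ s ∈ F, c s ≠ 0)
    (hd : ∑ s ∈ F, ((c s : ℝ) : ℂ) * s.1 = 0) : Pool.Agent.H96A.Gen (nu (PF F c)) := by
  constructor
  · intro i j hij
    obtain ⟨s, hs, es⟩ := mem_PF.1 i.2
    obtain ⟨t, ht, et⟩ := mem_PF.1 j.2
    simp only [nu]
    rw [← es, ← et, dt_ph]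
    apply mul_ne_zero (mul_ne_zero (ep_ne _ _) (ep_ne _ _))
    apply hn s hs t ht
    rintro rfl
    exact hij (Subtype.ext (es.symm.trans et))
  · intro w hw
    by_contra hcon
    push Not at hcon
    have h1 : ∀ s ∈ F, -ep c s * ip s.1 w ≤ 0 := by
      intro s hs
      have := hcon ⟨ph c s, mem_PF.2 ⟨s, hs, rfl⟩⟩
      simp only [nu, ip_ph] at this
      exact this
    have h2 : ∑ s ∈ F, c s * ip s.1 w = 0 := by
      have e1 : ip (∑ s ∈ F, ((c s : ℝ) : ℂ) * s.1) w = ∑ s ∈ F, c s * ip s.1 w := by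
        unfold ip
        rw [Complex.re_sum, Complex.im_sum, Finset.sum_mul, Finset.sum_mul,
          ← Finset.sum_add_distrib]
        apply Finset.sum_congr rfl
        intro s _
        simp only [Complex.re_ofReal_mul, Complex.im_ofReal_mul]
        ring
      rw [← e1, hd]
      unfold ip; simp
    have h3 : ∀ s ∈ F, 0 ≤ c s * ip s.1 w := by
      intro s hs
      have e : c s * ip s.1 w = |c s| * -(-ep c s * ip s.1 w) := by
        rw [← ep_abs c s, abs_mul, abs_abs]
        have : |ep c s| = 1 := by unfold ep; split_ifs <;> simp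
        rw [this]; ring
      rw [e]
      exact mul_nonneg (abs_nonneg _) (by have := h1 s hs; linarith)
    have h4' : ∀ s ∈ F, ip s.1 w = 0 := by
      intro s hs
      have := (Finset.sum_eq_zero_iff_of_nonneg h3).1 h2 s hs
      exact (mul_eq_zero.1 this).resolve_left (hc s hs)
    obtain ⟨s, hs, t, ht, hst⟩ := Finset.one_lt_card.1 (by rw [h4]; norm_num : 1 < F.card)
    have hdt := hn s hs t ht hst
    apply hw
    have e1 := h4' s hs
    have e2 := h4' t ht
    unfold ip at e1 e2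
    unfold dt at hdt
    apply Complex.ext
    · have : (s.1.re * t.1.im - s.1.im * t.1.re) * w.re = 0 := by
        linear_combination t.1.im * e1 - s.1.im * e2
      simpa using (mul_eq_zero.1 this).resolve_left hdt
    · have : (s.1.re * t.1.im - s.1.im * t.1.re) * w.im = 0 := by
        linear_combination s.1.re * e2 - t.1.re * e1
      simpa using (mul_eq_zero.1 this).resolve_left hdt

theorem empty_PF (hd : ∑ s ∈ F, ((c s : ℝ) : ℂ) * s.1 = 0) (hp : 0 < ∑ s ∈ F, c s * s.2) :
    Q (nu (PF F c)) (nH (PF F c)) = ∅ := by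
  ext x
  simp only [mem_empty_iff_false, iff_false]
  intro hx
  have h1 : ∀ s ∈ F, -ep c s * ip s.1 x ≤ -ep c s * s.2 := by
    intro s hs
    have := hx ⟨ph c s, mem_PF.2 ⟨s, hs, rfl⟩⟩
    simp only [nu, nH, ip_ph] at this
    exact this
  have h2 : ∑ s ∈ F, c s * ip s.1 x = 0 := by
    have e1 : ip (∑ s ∈ F, ((c s : ℝ) : ℂ) * s.1) x = ∑ s ∈ F, c s * ip s.1 x := by
      unfold ip
      rw [Complex.re_sum, Complex.im_sum, Finset.sum_mul, Finset.sum_mul,
        ← Finset.sum_add_distrib]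
      apply Finset.sum_congr rfl
      intro s _
      simp only [Complex.re_ofReal_mul, Complex.im_ofReal_mul]
      ring
    rw [← e1, hd]
    unfold ip; simp
  have h3 : ∑ s ∈ F, c s * s.2 ≤ ∑ s ∈ F, c s * ip s.1 x := by
    apply Finset.sum_le_sum
    intro s hs
    have h4 := mul_le_mul_of_nonneg_left (h1 s hs) (abs_nonneg (c s))
    have e := ep_abs c s
    have e1 : |c s| * (-ep c s * ip s.1 x) = -(c s * ip s.1 x) := by
      rw [← e, abs_mul, abs_abs]
      have : |ep c s| = 1 := by unfold ep; split_ifs <;> simp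
      rw [this]; ring
    have e2 : |c s| * (-ep c s * s.2) = -(c s * s.2) := by
      rw [← e, abs_mul, abs_abs]
      have : |ep c s| = 1 := by unfold ep; split_ifs <;> simp
      rw [this]; ring
    rw [e1, e2] at h4
    linarith
  rw [h2] at h3
  linarith

open Classical in
/-- the death formula for a cell which is empty at the beginning -/
theorem death0 {ι : Type*} [Fintype ι] {u : ι → ℂ} (hg : Pool.Agent.H96A.Gen u) {H : ι → ℝ}
    (h0 : Q u H = ∅) (h : ι → ℝ) (ht : Pool.Agent.H96A.NoTie u H h) :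
    (volume (Q u (bs H h 1))).toReal
      = (1 / 6) * ∑ i, ∑ j, ∑ k, if A3 u H h i j k then zz u h (bs H h 1) i j k else 0 := by
  have hs : Simple u H := by
    intro x hx
    rw [h0] at hx
    exact absurd hx (Set.notMem_empty x)
  obtain ⟨d, hd⟩ := Pool.Agent.H96A.exists_rot (Pool.Agent.H96A.ne_zero_of_gen hg)
  have key := Pool.Agent.H96A.death_lim (Pool.Agent.H96A.gen_rot d hg) hd
    (Pool.Agent.H96A.simple_rot d hs) (Pool.Agent.H96A.noTie_rot d ht)
  rw [Pool.Agent.H96A.volume_Q_rot] at key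
  rw [key]
  have e0 : Q (fun i => (d : ℂ) * u i) H = ∅ := by
    ext x
    simp only [mem_empty_iff_false, iff_false]
    intro hx
    obtain ⟨y, rfl⟩ := Pool.Agent.H96A.exists_eq_rot d x
    have := (Pool.Agent.H96A.mem_Q_rot d).1 hx
    rw [h0] at this
    exact Set.notMem_empty y this
  have e1 : (∑ i, ∑ j, if i ≠ j ∧ Pool.Agent.H96A.vt (fun i => (d : ℂ) * u i) H i j ∈
      Q (fun i => (d : ℂ) * u i) H then
      Pool.Agent.H96A.gg (fun i => (d : ℂ) * u i) (bs H h 1) i j else 0) = 0 := by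
    apply Finset.sum_eq_zero; intro i _
    apply Finset.sum_eq_zero; intro j _
    rw [if_neg]
    rintro ⟨-, hm⟩
    rw [e0] at hm
    exact Set.notMem_empty _ hm
  rw [e1, mul_zero, zero_add]
  congr 1
  apply Finset.sum_congr rfl; intro i _
  apply Finset.sum_congr rfl; intro j _
  apply Finset.sum_congr rfl; intro k _
  rw [if_congr (Pool.Agent.H96A.A3_rotate d) rfl rfl, Pool.Agent.H96A.zz_rotate]

theorem mem_Mp {s : HP} : s ∈ Mp F c ↔ s ∈ F ∧ 0 < c s := by
  classical
  unfold Mp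
  exact Finset.mem_filter

theorem mem_Mm {s : HP} : s ∈ Mm F c ↔ s ∈ F ∧ c s < 0 := by
  classical
  unfold Mm
  exact Finset.mem_filter

theorem ep_pos {s : HP} (h : 0 < c s) : ep c s = 1 := by unfold ep; rw [if_pos h]

theorem ep_neg {s : HP} (h : c s < 0) : ep c s = -1 := by
  unfold ep; rw [if_neg (not_lt.2 h.le)]

/-- the area of the cell -/
theorem area_PF (hn : Np F) (hu : ∀ s ∈ F, ‖s.1‖ = 1) (hc : ∀ s ∈ F, c s ≠ 0) (h : ℂ → ℝ) :
    Ar (Mp F c) (Mm F c) h =
      (volume (Q (nu (PF F c)) (bs (nH (PF F c)) (nh (PF F c) (hF F c h)) 1))).toReal := by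
  unfold Ar
  congr 1
  apply measure_congr
  have hae : ∀ᵐ x : ℂ, ∀ s : {s // s ∈ F}, ip s.1.1 x ≠ s.1.2 - h s.1.1 := by
    rw [ae_all_iff]
    intro s
    apply compl_mem_ae_iff.2
    apply Pool.Agent.H96A.volume_line
    intro h0
    have := hu s.1 s.2
    rw [h0, norm_zero] at this
    exact zero_ne_one this
  filter_upwards [hae] with x hx
  apply propext
  constructor
  · intro hm i
    obtain ⟨hm1, hm2⟩ := hm
    obtain ⟨s, hs, es⟩ := mem_PF.1 i.2
    simp only [nu, nH, nh, bs]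
    rw [← es, ip_ph, hF_ph hn h hs]
    change -ep c s * ip s.1 x ≤ -ep c s * s.2 - 1 * (-ep c s * h s.1)
    rcases lt_or_gt_of_ne (hc s hs) with h1 | h1
    · have := hm2 s (mem_Mm.2 ⟨hs, h1⟩)
      rw [ep_neg h1]; linarith
    · have := hm1 s (mem_Mp.2 ⟨hs, h1⟩)
      rw [ep_pos h1]; linarith
  · intro hm
    have key : ∀ s ∈ F, -ep c s * ip s.1 x ≤ -ep c s * s.2 - 1 * (-ep c s * h s.1) := by
      intro s hs
      have := hm ⟨ph c s, mem_PF.2 ⟨s, hs, rfl⟩⟩
      simp only [nu, nH, nh, bs] at this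
      rw [ip_ph, hF_ph hn h hs] at this
      exact this
    refine ⟨?_, ?_⟩
    · intro s hs
      obtain ⟨hs, h1⟩ := mem_Mp.1 hs
      have h2 := key s hs
      have h3 := hx ⟨s, hs⟩
      rw [ep_pos h1] at h2
      rcases lt_or_gt_of_ne h3 with h4 | h4
      · simp only at h4; linarith
      · simp only at h4; linarith
    · intro s hs
      obtain ⟨hs, h1⟩ := mem_Mm.1 hs
      have h2 := key s hs
      have h3 := hx ⟨s, hs⟩
      rw [ep_neg h1] at h2
      rcases lt_or_gt_of_ne h3 with h4 | h4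
      · simp only at h4; linarith
      · simp only at h4; linarith

open Classical in
/-- the event -/
theorem ev_PF (hn : Np F) (hc : ∀ s ∈ F, c s ≠ 0) (h : ℂ → ℝ) {t : HP} (ht : t ∈ F) :
    Ev (PF F c) ((F.erase t).image (ph c)) (hF F c h) ↔
      ∃ (σ : ℝ) (x : ℂ), 0 < σ ∧ σ ≤ 1 ∧ (∀ s ∈ F.erase t, σ * h s.1 + ip s.1 x = s.2) ∧
        0 < ep c t * (σ * h t.1 + ip t.1 x - t.2) := by
  have hv : ∀ (σ : ℝ) (x : ℂ), ∀ s ∈ F, σ * hF F c h (ph c s).1 + ip (ph c s).1 x =
      -ep c s * (σ * h s.1 + ip s.1 x) := by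
    intro σ x s hs
    rw [hF_ph hn h hs, ip_ph]; ring
  have htch : ∀ (σ : ℝ) (x : ℂ), ∀ s ∈ F,
      (ph c s ∈ touch (PF F c) (fun w => σ * hF F c h w + ip w x) ↔
        σ * h s.1 + ip s.1 x = s.2) := by
    intro σ x s hs
    rw [Pool.Agent.AEU.H96.mem_touch, hv σ x s hs]
    constructor
    · rintro ⟨-, e⟩
      exact mul_left_cancel₀ (neg_ne_zero.2 (ep_ne c s)) e
    · intro e
      refine ⟨mem_PF.2 ⟨s, hs, rfl⟩, ?_⟩
      rw [e]; rfl
  have himg : ∀ s ∈ F, (ph c s ∈ (F.erase t).image (ph c) ↔ s ≠ t) := by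
    intro s hs
    rw [Finset.mem_image]
    constructor
    · rintro ⟨r, hr, e⟩
      have := ph_inj hn (Finset.mem_of_mem_erase hr) hs e
      rw [← this]
      exact Finset.ne_of_mem_erase hr
    · intro hne
      exact ⟨s, Finset.mem_erase.2 ⟨hne, hs⟩, rfl⟩
  unfold Ev
  constructor
  · rintro ⟨σ, x, h0, h1, hf, htt⟩
    refine ⟨σ, x, h0, h1, ?_, ?_⟩
    · intro s hs
      have hsF := Finset.mem_of_mem_erase hs
      rw [← htch σ x s hsF, htt, himg s hsF]
      exact Finset.ne_of_mem_erase hs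
    · have h2 := hf (ph c t) (mem_PF.2 ⟨t, ht, rfl⟩)
      simp only at h2
      rw [hv σ x t ht] at h2
      have h3 : ¬ (σ * h t.1 + ip t.1 x = t.2) := by
        rw [← htch σ x t ht, htt, himg t ht]
        simp
      have h4 : (ph c t).2 = -ep c t * t.2 := rfl
      rw [h4] at h2
      have h5 : 0 ≤ ep c t * (σ * h t.1 + ip t.1 x - t.2) := by nlinarith
      rcases h5.lt_or_eq with h6 | h6
      · exact h6
      · exfalso
        apply h3
        have := (mul_eq_zero.1 h6.symm).resolve_left (ep_ne c t)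
        linarith
  · rintro ⟨σ, x, h0, h1, he, hp⟩
    refine ⟨σ, x, h0, h1, ?_, ?_⟩
    · intro r hr
      obtain ⟨s, hs, rfl⟩ := mem_PF.1 hr
      change σ * hF F c h (ph c s).1 + ip (ph c s).1 x ≤ (ph c s).2
      rw [hv σ x s hs]
      have h4 : (ph c s).2 = -ep c s * s.2 := rfl
      rw [h4]
      by_cases hst : s = t
      · rw [hst]; nlinarith
      · rw [he s (Finset.mem_erase.2 ⟨hst, hs⟩)]
    · ext r
      constructor
      · intro hr
        obtain ⟨s, hs, rfl⟩ := mem_PF.1 (Pool.Agent.AEU.H96.mem_touch.1 hr).1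
        rw [htch σ x s hs] at hr
        rw [himg s hs]
        rintro rfl
        rw [hr, sub_self, mul_zero] at hp
        exact lt_irrefl _ hp
      · intro hr
        obtain ⟨s, hs, rfl⟩ := Finset.mem_image.1 hr
        rw [htch σ x s (Finset.mem_of_mem_erase hs)]
        exact he s hs

/-- the contributions -/
theorem D0_ph (c : HP → ℝ) (a b d : HP) :
    D0 (ph c a) (ph c b) (ph c d) = -(ep c a * ep c b * ep c d) * D0 a b d := by
  unfold D0
  rw [dt_ph, dt_ph, dt_ph]
  have e : ∀ s, (ph c s).2 = -ep c s * s.2 := fun s => rfl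
  rw [e, e, e]
  ring

theorem DD_ph (hn : Np F) (h : ℂ → ℝ) {a b d : HP} (ha : a ∈ F) (hb : b ∈ F) (hd : d ∈ F) :
    DD (ph c a).1 (ph c b).1 (ph c d).1 (hF F c h)
      = -(ep c a * ep c b * ep c d) * DD a.1 b.1 d.1 h := by
  unfold DD
  rw [dt_ph, dt_ph, dt_ph, hF_ph hn h ha, hF_ph hn h hb, hF_ph hn h hd]
  ring

theorem pr_ph (c : HP → ℝ) (a b d : HP) : pr (ph c a).1 (ph c b).1 (ph c d).1 =
    pr a.1 b.1 d.1 := by
  unfold pr
  rw [dt_ph, dt_ph, dt_ph]
  have e1 := ep_sq c a
  have e2 := ep_sq c b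
  have e3 := ep_sq c d
  calc ep c a * ep c b * dt a.1 b.1 * (ep c b * ep c d * dt b.1 d.1) *
        (ep c d * ep c a * dt d.1 a.1)
      = (ep c a * ep c a) * (ep c b * ep c b) * (ep c d * ep c d) *
        (dt a.1 b.1 * dt b.1 d.1 * dt d.1 a.1) := by ring
    _ = _ := by rw [e1, e2, e3]; ring

/-- the sign of a triple -/
noncomputable def sg (c : HP → ℝ) (S : Finset HP) : ℝ := ∏ s ∈ S, ep c s

theorem sg_cases (c : HP → ℝ) (S : Finset HP) : sg c S = 1 ∨ sg c S = -1 := by
  classical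
  unfold sg
  induction S using Finset.induction_on with
  | empty => left; simp
  | insert a S ha ih =>
    rw [Finset.prod_insert ha]
    have : ep c a = 1 ∨ ep c a = -1 := by unfold ep; split_ifs <;> simp
    rcases this with h | h <;> rcases ih with h' | h' <;> rw [h, h'] <;> simp

open Classical in
theorem Zs_ph (hn : Np F) (h : ℂ → ℝ) {S : Finset HP} (hS : S ⊆ F) (h3 : S.card = 3) :
    Zs (S.image (ph c)) (hF F c h) = -(sg c S) * Zs S h := by
  have hinj : Set.InjOn (ph c) (S : Set HP) := fun s hs t ht e =>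
    ph_inj hn (hS hs) (hS ht) e
  unfold Zs
  rw [Finset.sum_image hinj]
  have e1 : ∀ a ∈ S, ∑ b ∈ S.image (ph c), ∑ d ∈ S.image (ph c),
      (if 0 < D0 (ph c a) b d then ZZ (ph c a).1 b.1 d.1 (D0 (ph c a) b d) (hF F c h) else 0)
      = ∑ b ∈ S, ∑ d ∈ S, (if 0 < D0 (ph c a) (ph c b) (ph c d) then
        ZZ (ph c a).1 (ph c b).1 (ph c d).1 (D0 (ph c a) (ph c b) (ph c d)) (hF F c h)
        else 0) := by
    intro a _
    rw [Finset.sum_image hinj]
    apply Finset.sum_congr rfl; intro b _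
    rw [Finset.sum_image hinj]
  rw [Finset.sum_congr rfl e1]
  have hprod : ∀ a ∈ S, ∀ b ∈ S, ∀ d ∈ S, D0 a b d ≠ 0 → ep c a * ep c b * ep c d = sg c S := by
    intro a ha b hb d hd hD
    have hab : a ≠ b := by
      rintro rfl
      apply hD; unfold D0 dt; ring
    have had : a ≠ d := by
      rintro rfl
      apply hD; unfold D0 dt; ring
    have hbd : b ≠ d := by
      rintro rfl
      apply hD; unfold D0 dt; ring
    have hSe : ({a, b, d} : Finset HP) = S := by
      apply Finset.eq_of_subset_of_card_le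
      · intro s hs
        simp only [Finset.mem_insert, Finset.mem_singleton] at hs
        rcases hs with rfl | rfl | rfl <;> assumption
      · rw [h3, Finset.card_insert_of_notMem, Finset.card_insert_of_notMem,
          Finset.card_singleton]
        · simpa using hbd
        · simp [hab, had]
    unfold sg
    rw [← hSe, Finset.prod_insert (by simp [hab, had]), Finset.prod_insert (by simp [hbd]),
      Finset.prod_singleton]
    ring
  rcases sg_cases c S with hs | hs
  · rw [hs]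
    have e2 : ∀ a ∈ S, ∀ b ∈ S, ∀ d ∈ S,
        (if 0 < D0 (ph c a) (ph c b) (ph c d) then
        ZZ (ph c a).1 (ph c b).1 (ph c d).1 (D0 (ph c a) (ph c b) (ph c d)) (hF F c h) else 0)
        = -(if 0 < D0 b a d then ZZ b.1 a.1 d.1 (D0 b a d) h else 0) := by
      intro a ha b hb d hd
      by_cases hD : D0 a b d = 0
      · have h1 : D0 b a d = 0 := by rw [Pool.Agent.AEU.H96.D0_swap, hD, neg_zero]
        rw [D0_ph, hD, h1]; simp
      · have hp := hprod a ha b hb d hd hD
        rw [hs] at hp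
        have h1 : D0 (ph c a) (ph c b) (ph c d) = D0 b a d := by
          rw [D0_ph, hp, Pool.Agent.AEU.H96.D0_swap a b d]; ring
        rw [h1]
        split_ifs with h2
        · unfold ZZ
          rw [DD_ph hn h (hS ha) (hS hb) (hS hd), hp, pr_ph, Pool.Agent.AEU.H96.DD_swap a.1 b.1,
            Pool.Agent.AEU.H96.pr_swap a.1 b.1]
          have h5 : 2 * -pr a.1 b.1 d.1 = -(2 * pr a.1 b.1 d.1) := by ring
          rw [h5, div_neg, neg_neg]
          congr 4
          ring
        · simp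
    have e3 : ∑ a ∈ S, ∑ b ∈ S, ∑ d ∈ S, (if 0 < D0 (ph c a) (ph c b) (ph c d) then
        ZZ (ph c a).1 (ph c b).1 (ph c d).1 (D0 (ph c a) (ph c b) (ph c d)) (hF F c h) else 0)
        = -∑ a ∈ S, ∑ b ∈ S, ∑ d ∈ S,
          (if 0 < D0 a b d then ZZ a.1 b.1 d.1 (D0 a b d) h else 0) := by
      rw [Finset.sum_comm (s := S) (t := S) (f := fun a b => ∑ d ∈ S,
        (if 0 < D0 a b d then ZZ a.1 b.1 d.1 (D0 a b d) h else 0)), ← Finset.sum_neg_distrib]
      apply Finset.sum_congr rfl; intro a ha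
      rw [← Finset.sum_neg_distrib]
      apply Finset.sum_congr rfl; intro b hb
      rw [← Finset.sum_neg_distrib]
      apply Finset.sum_congr rfl; intro d hd
      exact e2 a ha b hb d hd
    rw [e3]; ring
  · rw [hs]
    have e2 : ∀ a ∈ S, ∀ b ∈ S, ∀ d ∈ S,
        (if 0 < D0 (ph c a) (ph c b) (ph c d) then
        ZZ (ph c a).1 (ph c b).1 (ph c d).1 (D0 (ph c a) (ph c b) (ph c d)) (hF F c h) else 0)
        = (if 0 < D0 a b d then ZZ a.1 b.1 d.1 (D0 a b d) h else 0) := by
      intro a ha b hb d hd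
      by_cases hD : D0 a b d = 0
      · rw [D0_ph, hD]; simp
      · have hp := hprod a ha b hb d hd hD
        rw [hs] at hp
        have h1 : D0 (ph c a) (ph c b) (ph c d) = D0 a b d := by
          rw [D0_ph, hp]; ring
        rw [h1]
        split_ifs with h2
        · unfold ZZ
          rw [DD_ph hn h (hS ha) (hS hb) (hS hd), hp, pr_ph]
          congr 4
          ring
        · rfl
    have e3 : ∑ a ∈ S, ∑ b ∈ S, ∑ d ∈ S, (if 0 < D0 (ph c a) (ph c b) (ph c d) then
        ZZ (ph c a).1 (ph c b).1 (ph c d).1 (D0 (ph c a) (ph c b) (ph c d)) (hF F c h) else 0)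
        = ∑ a ∈ S, ∑ b ∈ S, ∑ d ∈ S,
          (if 0 < D0 a b d then ZZ a.1 b.1 d.1 (D0 a b d) h else 0) := by
      apply Finset.sum_congr rfl; intro a ha
      apply Finset.sum_congr rfl; intro b hb
      apply Finset.sum_congr rfl; intro d hd
      exact e2 a ha b hb d hd
    rw [e3]; ring

open Classical in
theorem sum_triples (h4 : F.card = 4) (hn : Np F) (g : Finset HP → ℝ) :
    ∑ S ∈ (PF F c).powersetCard 3, g S = ∑ t ∈ F, g ((F.erase t).image (ph c)) := by
  symm
  have himg : ∀ t ∈ F, ∀ s ∈ F, (ph c s ∈ (F.erase t).image (ph c) ↔ s ≠ t) := by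
    intro t _ s hs
    rw [Finset.mem_image]
    constructor
    · rintro ⟨r, hr, e⟩
      have := ph_inj hn (Finset.mem_of_mem_erase hr) hs e
      rw [← this]
      exact Finset.ne_of_mem_erase hr
    · intro hne
      exact ⟨s, Finset.mem_erase.2 ⟨hne, hs⟩, rfl⟩
  refine Finset.sum_bij (fun t _ => (F.erase t).image (ph c)) ?_ ?_ ?_ ?_
  · intro t ht
    rw [Finset.mem_powersetCard]
    constructor
    · intro r hr
      obtain ⟨s, hs, rfl⟩ := Finset.mem_image.1 hr
      exact mem_PF.2 ⟨s, Finset.mem_of_mem_erase hs, rfl⟩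
    · rw [Finset.card_image_of_injOn, Finset.card_erase_of_mem ht, h4]
      intro s hs r hr e
      exact ph_inj hn (Finset.mem_of_mem_erase hs) (Finset.mem_of_mem_erase hr) e
  · intro t ht s hs e
    by_contra hne
    have h1 := (himg s hs t ht).2 hne
    have h2 := (himg t ht t ht)
    rw [e] at h2
    exact (h2.1 h1) rfl
  · intro S hS
    rw [Finset.mem_powersetCard] at hS
    have h1 : ∃ r ∈ PF F c, r ∉ S := by
      by_contra hcon
      push Not at hcon
      have := Finset.card_le_card (show PF F c ⊆ S from hcon)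
      rw [card_PF hn, h4, hS.2] at this
      omega
    obtain ⟨r, hr, hrS⟩ := h1
    obtain ⟨t, ht, rfl⟩ := mem_PF.1 hr
    refine ⟨t, ht, ?_⟩
    symm
    apply Finset.eq_of_subset_of_card_le
    · intro q hq
      obtain ⟨s, hs, rfl⟩ := mem_PF.1 (hS.1 hq)
      rw [himg t ht s hs]
      rintro rfl
      exact hrS hq
    · rw [Finset.card_image_of_injOn, Finset.card_erase_of_mem ht, h4, hS.2]
      intro s hs r hr e
      exact ph_inj hn (Finset.mem_of_mem_erase hs) (Finset.mem_of_mem_erase hr) e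
  · intro t _; rfl

theorem sg_F (hc : ∀ s ∈ F, c s ≠ 0) : sg c F = (-1) ^ (Mm F c).card := by
  classical
  unfold sg
  have h1 : ∀ s ∈ F, ep c s = if c s < 0 then (-1 : ℝ) else 1 := by
    intro s hs
    rcases lt_or_gt_of_ne (hc s hs) with h | h
    · rw [ep_neg h, if_pos h]
    · rw [ep_pos h, if_neg (not_lt.2 h.le)]
  rw [Finset.prod_congr rfl h1, Finset.prod_ite, Finset.prod_const, Finset.prod_const_one,
    mul_one]
  rfl

theorem sg_erase {t : HP} (ht : t ∈ F) : sg c (F.erase t) = ep c t * sg c F := by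
  classical
  unfold sg
  rw [← Finset.mul_prod_erase F _ ht, ← mul_assoc, ep_sq, one_mul]

/-- **Module CLX.** -/
theorem clx : ClxStatement := by
  classical
  intro F c h4 hu hn hc hd hp h ht
  have hgen := gen_PF h4 hn hc hd
  have hemp := empty_PF hd hp
  have htie := noTie_PF (c := c) h4 hn ht
  have key := death0 hgen hemp (nh (PF F c) (hF F c h)) (Pool.Agent.AEU.H96.noTie_nu htie)
  rw [← area_PF hn hu hc h] at key
  have key2 := Pool.Agent.AEU.H96.death_triples htie
  rw [key2] at key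
  rw [sum_triples h4 hn] at key
  have e1 : ∀ t ∈ F, ind (Ev (PF F c) ((F.erase t).image (ph c)) (hF F c h)) *
      Zs ((F.erase t).image (ph c)) (hF F c h) =
      if 0 < c t then -((-1) ^ (Mm F c).card) * (ind (EvO (F.erase t) t h) * Zs (F.erase t) h)
      else ((-1) ^ (Mm F c).card) * (ind (EvN (F.erase t) t h) * Zs (F.erase t) h) := by
    intro t htF
    rw [Zs_ph hn h (Finset.erase_subset t F) (by rw [Finset.card_erase_of_mem htF, h4]),
      sg_erase htF, sg_F hc]
    have hev := ev_PF hn hc h htF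
    rcases lt_or_gt_of_ne (hc t htF) with h1 | h1
    · rw [if_neg (not_lt.2 h1.le)]
      have h2 : Ev (PF F c) ((F.erase t).image (ph c)) (hF F c h) ↔ EvN (F.erase t) t h := by
        rw [hev, ep_neg h1]
        unfold EvN
        constructor
        · rintro ⟨σ, x, a1, a2, a3, a4⟩
          exact ⟨σ, x, a1, a2, a3, by linarith⟩
        · rintro ⟨σ, x, a1, a2, a3, a4⟩
          exact ⟨σ, x, a1, a2, a3, by linarith⟩
      have h3 : ind (Ev (PF F c) ((F.erase t).image (ph c)) (hF F c h)) =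
          ind (EvN (F.erase t) t h) := by rw [propext h2]
      rw [h3, ep_neg h1]; ring
    · rw [if_pos h1]
      have h2 : Ev (PF F c) ((F.erase t).image (ph c)) (hF F c h) ↔ EvO (F.erase t) t h := by
        rw [hev, ep_pos h1]
        unfold EvO
        constructor
        · rintro ⟨σ, x, a1, a2, a3, a4⟩
          exact ⟨σ, x, a1, a2, a3, by linarith⟩
        · rintro ⟨σ, x, a1, a2, a3, a4⟩
          exact ⟨σ, x, a1, a2, a3, by linarith⟩
      have h3 : ind (Ev (PF F c) ((F.erase t).image (ph c)) (hF F c h)) =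
          ind (EvO (F.erase t) t h) := by rw [propext h2]
      rw [h3, ep_pos h1]; ring
  rw [Finset.sum_congr rfl e1, Finset.sum_ite, ← Finset.mul_sum, ← Finset.mul_sum] at key
  have e2 : F.filter (fun t => 0 < c t) = Mp F c := rfl
  have e3 : F.filter (fun t => ¬ 0 < c t) = Mm F c := by
    ext t
    rw [Finset.mem_filter, mem_Mm]
    constructor
    · rintro ⟨h1, h2⟩
      exact ⟨h1, lt_of_le_of_ne (not_lt.1 h2) (hc t h1)⟩
    · rintro ⟨h1, h2⟩
      exact ⟨h1, not_lt.2 h2.le⟩
  rw [e2, e3] at key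
  rw [key]
  have hsq : ((-1 : ℝ) ^ (Mm F c).card) * ((-1) ^ (Mm F c).card) = 1 := by
    rw [← mul_pow]; norm_num
  linear_combination (-(∑ t ∈ Mp F c, ind (EvO (F.erase t) t h) * Zs (F.erase t) h)
    + ∑ t ∈ Mm F c, ind (EvN (F.erase t) t h) * Zs (F.erase t) h) * hsq

end Pool.Agent.XQ.H99
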