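import Pool.Agent.Helper16_XQ.StmtD

/-!
Squad XQ (MP_5b0138_an), Part D, module KEX: the kinds exclude each other.
-/

set_option autoImplicit false

namespace Pool.Agent.XQ.H99

open Pool.Agent.H62T Pool.Agent.AEU Pool.Agent.XQ

theorem ipc (x y : ℂ) : ip x y = ip y x := by unfold ip; ring

theorem dtc (x y : ℂ) : dt x y = -dt y x := by unfold dt; ring

theorem ne3 {i j k : HP} {S : Finset HP} (h : S = {i, j, k}) (hc : S.card = 3) :
    i ≠ j ∧ i ≠ k ∧ j ≠ k := by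
  classical
  subst h
  refine ⟨?_, ?_, ?_⟩
  · rintro rfl
    have : ({i, i, k} : Finset HP).card ≤ 2 := by
      rw [Finset.insert_eq_of_mem (by simp)]
      exact Finset.card_le_two
    omega
  · rintro rfl
    have : ({i, j, i} : Finset HP).card ≤ 2 := by
      rw [Finset.insert_eq_of_mem (by simp)]
      exact Finset.card_le_two
    omega
  · rintro rfl
    have : ({i, j, j} : Finset HP).card ≤ 2 := by
      rw [Finset.insert_eq_of_mem (a := j) (s := {j}) (by simp)]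
      exact Finset.card_le_two
    omega

theorem perm3 {i j k i' j' k' : HP} {S : Finset HP} (h : S = {i, j, k}) (h' : S = {i', j', k'})
    (hc : S.card = 3) :
    (i' = i ∧ j' = j ∧ k' = k) ∨ (i' = i ∧ j' = k ∧ k' = j) ∨ (i' = j ∧ j' = i ∧ k' = k) ∨
      (i' = j ∧ j' = k ∧ k' = i) ∨ (i' = k ∧ j' = i ∧ k' = j) ∨ (i' = k ∧ j' = j ∧ k' = i) := by
  classical
  obtain ⟨a1, a2, a3⟩ := ne3 h hc
  obtain ⟨b1, b2, b3⟩ := ne3 h' hc
  have m1 : i' = i ∨ i' = j ∨ i' = k := by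
    have : i' ∈ S := by rw [h']; simp
    rw [h] at this; simpa using this
  have m2 : j' = i ∨ j' = j ∨ j' = k := by
    have : j' ∈ S := by rw [h']; simp
    rw [h] at this; simpa using this
  have m3 : k' = i ∨ k' = j ∨ k' = k := by
    have : k' ∈ S := by rw [h']; simp
    rw [h] at this; simpa using this
  rcases m1 with rfl | rfl | rfl <;> rcases m2 with rfl | rfl | rfl <;>
    rcases m3 with rfl | rfl | rfl <;> simp_all

/-- the three products, in all orders -/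
structure Sy (i j k : HP) (p q r : ℝ) : Prop where
  ij : ip i.1 j.1 = p
  ji : ip j.1 i.1 = p
  ik : ip i.1 k.1 = q
  ki : ip k.1 i.1 = q
  jk : ip j.1 k.1 = r
  kj : ip k.1 j.1 = r

theorem sy (i j k : HP) : Sy i j k (ip i.1 j.1) (ip i.1 k.1) (ip j.1 k.1) :=
  ⟨rfl, ipc _ _, rfl, ipc _ _, rfl, ipc _ _⟩

/-- comparison of the products for two enumerations of the same set -/
theorem cmp {i j k i' j' k' : HP} {S : Finset HP} {p q r p' q' r' : ℝ} (h : S = {i, j, k})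
    (h' : S = {i', j', k'}) (hc : S.card = 3) (hs : Sy i j k p q r) (hs' : Sy i' j' k' p' q' r') :
    (p' = p ∧ q' = q ∧ r' = r) ∨ (p' = q ∧ q' = p ∧ r' = r) ∨ (p' = p ∧ q' = r ∧ r' = q) ∨
      (p' = r ∧ q' = p ∧ r' = q) ∨ (p' = q ∧ q' = r ∧ r' = p) ∨ (p' = r ∧ q' = q ∧ r' = p) := by
  rcases perm3 h h' hc with ⟨rfl, rfl, rfl⟩ | ⟨rfl, rfl, rfl⟩ | ⟨rfl, rfl, rfl⟩ |
    ⟨rfl, rfl, rfl⟩ | ⟨rfl, rfl, rfl⟩ | ⟨rfl, rfl, rfl⟩
  · left; exact ⟨hs'.ij.symm.trans hs.ij, hs'.ik.symm.trans hs.ik, hs'.jk.symm.trans hs.jk⟩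
  · right; left
    exact ⟨hs'.ij.symm.trans hs.ik, hs'.ik.symm.trans hs.ij, hs'.jk.symm.trans hs.kj⟩
  · right; right; left
    exact ⟨hs'.ij.symm.trans hs.ji, hs'.ik.symm.trans hs.jk, hs'.jk.symm.trans hs.ik⟩
  · right; right; right; left
    exact ⟨hs'.ij.symm.trans hs.jk, hs'.ik.symm.trans hs.ji, hs'.jk.symm.trans hs.ki⟩
  · right; right; right; right; left
    exact ⟨hs'.ij.symm.trans hs.ki, hs'.ik.symm.trans hs.kj, hs'.jk.symm.trans hs.ij⟩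
  · right; right; right; right; right
    exact ⟨hs'.ij.symm.trans hs.kj, hs'.ik.symm.trans hs.ki, hs'.jk.symm.trans hs.ji⟩

theorem acute3 {i j k : HP} {S : Finset HP} (h : S = {i, j, k}) (hc : S.card = 3)
    (ha : Acute S) : ip i.1 j.1 < 0 ∧ ip i.1 k.1 < 0 ∧ ip j.1 k.1 < 0 := by
  classical
  obtain ⟨a1, a2, a3⟩ := ne3 h hc
  have m1 : i ∈ S := by rw [h]; simp
  have m2 : j ∈ S := by rw [h]; simp
  have m3 : k ∈ S := by rw [h]; simp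
  exact ⟨ha i m1 j m2 a1, ha i m1 k m3 a2, ha j m2 k m3 a3⟩

/-! Patterns of the products -/

/-- all negative -/
def PN (S : Finset HP) : Prop := ∃ i j k, S = {i, j, k} ∧ S.card = 3 ∧ ip i.1 j.1 < 0 ∧
  ip i.1 k.1 < 0 ∧ ip j.1 k.1 < 0

/-- one zero, two negative -/
def PZ (S : Finset HP) : Prop := ∃ i j k, S = {i, j, k} ∧ S.card = 3 ∧ ip i.1 j.1 = 0 ∧
  ip i.1 k.1 < 0 ∧ ip j.1 k.1 < 0

/-- one positive, two negative -/
def PP (S : Finset HP) : Prop := ∃ i j k, S = {i, j, k} ∧ S.card = 3 ∧ 0 < ip i.1 j.1 ∧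
  ip i.1 k.1 < 0 ∧ ip j.1 k.1 < 0

/-- one positive, one zero, one negative -/
def PZP (S : Finset HP) : Prop := ∃ i j k, S = {i, j, k} ∧ S.card = 3 ∧ 0 < ip i.1 j.1 ∧
  ip i.1 k.1 < 0 ∧ ip j.1 k.1 = 0

/-- two positive -/
def P2 (S : Finset HP) : Prop := ∃ i j k, S = {i, j, k} ∧ S.card = 3 ∧ 0 < ip i.1 j.1 ∧
  0 < ip j.1 k.1


theorem excl {S : Finset HP} : (PN S → ¬ PZ S ∧ ¬ PP S ∧ ¬ PZP S ∧ ¬ P2 S) ∧
    (PZ S → ¬ PP S ∧ ¬ PZP S ∧ ¬ P2 S) ∧ (PP S → ¬ PZP S ∧ ¬ P2 S) ∧ (PZP S → ¬ P2 S) := by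
  refine ⟨?_, ?_, ?_, ?_⟩
  · rintro ⟨i, j, k, h, hc, x1, x2, x3⟩
    refine ⟨?_, ?_, ?_, ?_⟩
    · rintro ⟨i', j', k', h', hc', y1, y2, y3⟩
      rcases cmp h h' hc (sy i j k) (sy i' j' k') with ⟨e1, e2, e3⟩ | ⟨e1, e2, e3⟩ |
        ⟨e1, e2, e3⟩ | ⟨e1, e2, e3⟩ | ⟨e1, e2, e3⟩ | ⟨e1, e2, e3⟩ <;> linarith
    · rintro ⟨i', j', k', h', hc', y1, y2, y3⟩
      rcases cmp h h' hc (sy i j k) (sy i' j' k') with ⟨e1, e2, e3⟩ | ⟨e1, e2, e3⟩ |
        ⟨e1, e2, e3⟩ | ⟨e1, e2, e3⟩ | ⟨e1, e2, e3⟩ | ⟨e1, e2, e3⟩ <;> linarith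
    · rintro ⟨i', j', k', h', hc', y1, y2, y3⟩
      rcases cmp h h' hc (sy i j k) (sy i' j' k') with ⟨e1, e2, e3⟩ | ⟨e1, e2, e3⟩ |
        ⟨e1, e2, e3⟩ | ⟨e1, e2, e3⟩ | ⟨e1, e2, e3⟩ | ⟨e1, e2, e3⟩ <;> linarith
    · rintro ⟨i', j', k', h', hc', y1, y2⟩
      rcases cmp h h' hc (sy i j k) (sy i' j' k') with ⟨e1, e2, e3⟩ | ⟨e1, e2, e3⟩ |
        ⟨e1, e2, e3⟩ | ⟨e1, e2, e3⟩ | ⟨e1, e2, e3⟩ | ⟨e1, e2, e3⟩ <;> linarith
  · rintro ⟨i, j, k, h, hc, x1, x2, x3⟩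
    refine ⟨?_, ?_, ?_⟩
    · rintro ⟨i', j', k', h', hc', y1, y2, y3⟩
      rcases cmp h h' hc (sy i j k) (sy i' j' k') with ⟨e1, e2, e3⟩ | ⟨e1, e2, e3⟩ |
        ⟨e1, e2, e3⟩ | ⟨e1, e2, e3⟩ | ⟨e1, e2, e3⟩ | ⟨e1, e2, e3⟩ <;> linarith
    · rintro ⟨i', j', k', h', hc', y1, y2, y3⟩
      rcases cmp h h' hc (sy i j k) (sy i' j' k') with ⟨e1, e2, e3⟩ | ⟨e1, e2, e3⟩ |
        ⟨e1, e2, e3⟩ | ⟨e1, e2, e3⟩ | ⟨e1, e2, e3⟩ | ⟨e1, e2, e3⟩ <;> linarith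
    · rintro ⟨i', j', k', h', hc', y1, y2⟩
      rcases cmp h h' hc (sy i j k) (sy i' j' k') with ⟨e1, e2, e3⟩ | ⟨e1, e2, e3⟩ |
        ⟨e1, e2, e3⟩ | ⟨e1, e2, e3⟩ | ⟨e1, e2, e3⟩ | ⟨e1, e2, e3⟩ <;> linarith
  · rintro ⟨i, j, k, h, hc, x1, x2, x3⟩
    refine ⟨?_, ?_⟩
    · rintro ⟨i', j', k', h', hc', y1, y2, y3⟩
      rcases cmp h h' hc (sy i j k) (sy i' j' k') with ⟨e1, e2, e3⟩ | ⟨e1, e2, e3⟩ |
        ⟨e1, e2, e3⟩ | ⟨e1, e2, e3⟩ | ⟨e1, e2, e3⟩ | ⟨e1, e2, e3⟩ <;> linarith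
    · rintro ⟨i', j', k', h', hc', y1, y2⟩
      rcases cmp h h' hc (sy i j k) (sy i' j' k') with ⟨e1, e2, e3⟩ | ⟨e1, e2, e3⟩ |
        ⟨e1, e2, e3⟩ | ⟨e1, e2, e3⟩ | ⟨e1, e2, e3⟩ | ⟨e1, e2, e3⟩ <;> linarith
  · rintro ⟨i, j, k, h, hc, x1, x2, x3⟩
    rintro ⟨i', j', k', h', hc', y1, y2⟩
    rcases cmp h h' hc (sy i j k) (sy i' j' k') with ⟨e1, e2, e3⟩ | ⟨e1, e2, e3⟩ |
      ⟨e1, e2, e3⟩ | ⟨e1, e2, e3⟩ | ⟨e1, e2, e3⟩ | ⟨e1, e2, e3⟩ <;> linarith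

theorem card3_ex {S : Finset HP} (hc : S.card = 3) : ∃ i j k, S = {i, j, k} := by
  classical
  obtain ⟨i, j, k, _, _, _, h⟩ := Finset.card_eq_three.1 hc
  exact ⟨i, j, k, h⟩

theorem pn_of_acute {S : Finset HP} (hc : S.card = 3) (ha : Acute S) : PN S := by
  obtain ⟨i, j, k, h⟩ := card3_ex hc
  obtain ⟨x1, x2, x3⟩ := acute3 h hc ha
  exact ⟨i, j, k, h, hc, x1, x2, x3⟩

variable {S : Finset HP} {L : ℝ}

theorem pn_old (h : Old S L) : PN S := pn_of_acute h.card h.acute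

theorem pn_kgh (h : KGh S L) : PN S := pn_of_acute h.card h.acute

theorem p2_ka {c c' : ℝ} (h : KA S L c c') : P2 S := by
  obtain ⟨i, j, k, hS, hc, hA⟩ := h
  exact ⟨i, j, k, hS, hc, by rw [hA.ij]; exact hA.pos, by rw [hA.jk]; exact hA.pos'⟩

/-- composition of turns -/
theorem ip_trans {x y z : ℂ} (hy : ‖y‖ = 1) : ip x z = ip x y * ip y z - dt x y * dt y z := by
  have h := Complex.sq_norm y
  rw [hy, Complex.normSq_apply] at h
  unfold ip dt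
  linear_combination (x.re * z.re + x.im * z.im) * h

theorem dt_trans {x y z : ℂ} (hy : ‖y‖ = 1) : dt x z = dt x y * ip y z + ip x y * dt y z := by
  have h := Complex.sq_norm y
  rw [hy, Complex.normSq_apply] at h
  unfold ip dt
  linear_combination (x.re * z.im - x.im * z.re) * h

theorem pzp_kah {c : ℝ} (h : KAh S L c) : PZP S := by
  obtain ⟨i, j, k, hS, hc, hi, hj, hk, h1, h2, h3, h4, h5, h6, h7, h8⟩ := h
  refine ⟨i, j, k, hS, hc, by rw [h1]; exact h2, ?_, h4⟩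
  rw [ip_trans hj, h4]
  linarith

theorem pp_kb {c a b : ℝ} (h : KB S L c a b) : PP S := by
  obtain ⟨i, j, q, hS, hc, hB, hp⟩ := h
  exact ⟨i, j, q, hS, hc, by rw [hB.ij]; exact hp, by rw [hB.iq]; exact hB.nega,
    by rw [hB.jq]; exact hB.negb⟩

theorem pz_kbr {a b : ℝ} (h : KBr S L a b) : PZ S := by
  obtain ⟨i, j, q, hS, hc, hB⟩ := h
  exact ⟨i, j, q, hS, hc, hB.ij, by rw [hB.iq]; exact hB.nega,
    by rw [hB.jq]; exact hB.negb⟩

theorem pn_kba {c a b : ℝ} (h : KBa S L c a b) : PN S := by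
  obtain ⟨i, j, q, hS, hc, hB, h1, h2, _⟩ := h
  exact pn_of_acute hc h2

theorem pn_kiso (h : KIso S L) : PN S := by
  obtain ⟨i, j, q, c, a, hS, hc, hB, h1, h2, _⟩ := h
  exact pn_of_acute hc h2

theorem kba_kiso {c a b : ℝ} (h : KBa S L c a b) : ¬ KIso S L := by
  rintro ⟨i', j', q', c', a', hS', hc', hB', h1', h2', h3', h4', h5'⟩
  obtain ⟨i, j, q, hS, hc, hB, h1, h2, h3, h4, h5, h6⟩ := h
  have hs : Sy i j q c a b := by
    have := sy i j q; rwa [hB.ij, hB.iq, hB.jq] at this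
  have hs' : Sy i' j' q' c' a' c' := by
    have := sy i' j' q'; rwa [hB'.ij, hB'.iq, hB'.jq] at this
  rcases cmp hS hS' hc hs hs' with ⟨e1, e2, e3⟩ | ⟨e1, e2, e3⟩ |
    ⟨e1, e2, e3⟩ | ⟨e1, e2, e3⟩ | ⟨e1, e2, e3⟩ | ⟨e1, e2, e3⟩ <;> linarith

/-- the unique largest product -/
theorem kb_big {c a b : ℝ} (h : KB S L c a b ∨ KBa S L c a b) : ∃ i j q, S = {i, j, q} ∧
    S.card = 3 ∧ Sy i j q c a b ∧ a < c ∧ b < c := by
  rcases h with ⟨i, j, q, hS, hc, hB, hp⟩ | ⟨i, j, q, hS, hc, hB, h1, h2, h3, h4, h5, h6⟩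
  · refine ⟨i, j, q, hS, hc, ?_, hB.nega.trans hp, hB.negb.trans hp⟩
    have := sy i j q; rwa [hB.ij, hB.iq, hB.jq] at this
  · refine ⟨i, j, q, hS, hc, ?_, h6, h5⟩
    have := sy i j q; rwa [hB.ij, hB.iq, hB.jq] at this

theorem kb_uniq {c a b c' a' b' : ℝ} (h : KB S L c a b ∨ KBa S L c a b)
    (h' : KB S L c' a' b' ∨ KBa S L c' a' b') :
    c = c' ∧ ((a = a' ∧ b = b') ∨ (a = b' ∧ b = a')) := by
  obtain ⟨i, j, q, hS, hc, hs, h1, h2⟩ := kb_big h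
  obtain ⟨i', j', q', hS', hc', hs', h1', h2'⟩ := kb_big h'
  rcases cmp hS hS' hc hs hs' with ⟨e1, e2, e3⟩ | ⟨e1, e2, e3⟩ |
    ⟨e1, e2, e3⟩ | ⟨e1, e2, e3⟩ | ⟨e1, e2, e3⟩ | ⟨e1, e2, e3⟩
  · exact ⟨e1.symm, Or.inl ⟨e2.symm, e3.symm⟩⟩
  · exfalso; linarith
  · exact ⟨e1.symm, Or.inr ⟨e3.symm, e2.symm⟩⟩
  · exfalso; linarith
  · exfalso; linarith
  · exfalso; linarith

/-- the middle side of the type A is determined -/
theorem ka_mid {i j k : HP} {c d c' d' : ℝ} (h : IsA i j k L c d) (h' : IsA j i k L c' d') :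
    False := by
  have h1 : 0 < dt i.1 j.1 * dt i.1 k.1 := by
    rw [dt_trans (x := i.1) (y := j.1) (z := k.1) h.uj, h.ij, h.jk]
    have h2 : 0 < dt i.1 j.1 * dt j.1 k.1 := h.or
    have h3 : dt i.1 j.1 ≠ 0 := by
      intro h0; rw [h0, zero_mul] at h2; exact lt_irrefl _ h2
    have h4 : 0 < dt i.1 j.1 * dt i.1 j.1 := mul_self_pos.2 h3
    have e : dt i.1 j.1 * (dt i.1 j.1 * d + c * dt j.1 k.1)
        = d * (dt i.1 j.1 * dt i.1 j.1) + c * (dt i.1 j.1 * dt j.1 k.1) := by ring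
    rw [e]
    have := mul_pos h.pos' h4
    have := mul_pos h.pos h2
    linarith
  have h2 : 0 < dt j.1 i.1 * dt i.1 k.1 := h'.or
  rw [dtc j.1 i.1] at h2
  linarith

theorem isA_sym {i j k : HP} {c d : ℝ} (h : IsA i j k L c d) : IsA k j i L d c where
  ui := h.uk
  uj := h.uj
  uk := h.ui
  ij := by rw [ipc]; exact h.jk
  jk := by rw [ipc]; exact h.ij
  pos := h.pos'
  pos' := h.pos
  lt := h.lt'
  lt' := h.lt
  or := by
    have := h.or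
    rw [dtc k.1 j.1, dtc j.1 i.1]
    linarith
  len := by
    have := h.len
    have hv : ∀ s t : HP, vx s t = vx t s := by
      intro s t
      unfold vx
      rw [dtc s.1 t.1]
      push_cast
      rw [div_neg, ← neg_div]
      congr 1
      ring
    unfold eA at this ⊢
    rw [hv k j, hv j i, norm_sub_rev]
    exact this
  in₁ := by
    have hv : vx k j = vx j k := by
      unfold vx
      rw [dtc k.1 j.1]
      push_cast
      rw [div_neg, ← neg_div]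
      congr 1
      ring
    rw [hv]; exact h.in₂
  in₂ := by
    have hv : vx j i = vx i j := by
      unfold vx
      rw [dtc j.1 i.1]
      push_cast
      rw [div_neg, ← neg_div]
      congr 1
      ring
    rw [hv]; exact h.in₁

theorem ka_uniq {c d c' d' : ℝ} (h : KA S L c d) (h' : KA S L c' d') :
    (c = c' ∧ d = d') ∨ (c = d' ∧ d = c') := by
  obtain ⟨i, j, k, hS, hc, hA⟩ := h
  obtain ⟨i', j', k', hS', hc', hA'⟩ := h'
  rcases perm3 hS hS' hc with ⟨rfl, rfl, rfl⟩ | ⟨rfl, rfl, rfl⟩ | ⟨rfl, rfl, rfl⟩ |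
    ⟨rfl, rfl, rfl⟩ | ⟨rfl, rfl, rfl⟩ | ⟨rfl, rfl, rfl⟩
  · left; exact ⟨hA.ij.symm.trans hA'.ij, hA.jk.symm.trans hA'.jk⟩
  · -- i' = i, j' = k, k' = j
    exfalso
    exact ka_mid (isA_sym hA) (isA_sym hA')
  · exfalso
    exact ka_mid hA hA'
  · exfalso
    exact ka_mid (isA_sym hA) hA'
  · exfalso
    exact ka_mid hA (isA_sym hA')
  · right
    exact ⟨hA.ij.symm.trans ((ipc _ _).trans hA'.jk), hA.jk.symm.trans ((ipc _ _).trans hA'.ij)⟩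

theorem alt_isB {i j q : HP} {c a b : ℝ} (hS : S = {i, j, q})
    (halt : ∀ i j q, S = {i, j, q} → L / 2 < q.2 - ip q.1 (vx i j)) (hB : IsB i j q L c a b) :
    False := by
  have := halt i j q hS
  rw [hB.len] at this
  exact lt_irrefl _ this

theorem not_acute_of_nonneg {i j k : HP} (hS : S = {i, j, k}) (hc : S.card = 3)
    (h : 0 ≤ ip i.1 j.1) : ¬ Acute S := by
  intro ha
  have := (acute3 hS hc ha).1
  linarith

/-- **Module KEX.** -/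
theorem kex : KexStatement := by
  intro S L _
  obtain ⟨x1, x2, x3, x4⟩ := excl (S := S)
  refine ⟨?_, ?_, ?_, ?_, ?_, ?_, ?_, ?_, ?_, ?_, ?_⟩
  · intro h h'
    have := h.lt
    rw [h'.len] at this
    exact lt_irrefl _ this
  · intro h
    have hn : PN S := by
      rcases h with h | h
      · exact pn_old h
      · exact pn_kgh h
    have halt : ∀ i j q, S = {i, j, q} → L / 2 < q.2 - ip q.1 (vx i j) := by
      rcases h with h | h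
      · exact h.alt
      · exact h.alt
    obtain ⟨y1, y2, y3, y4⟩ := x1 hn
    refine ⟨fun c c' hk => y4 (p2_ka hk), fun c hk => y3 (pzp_kah hk),
      fun c a b hk => y2 (pp_kb hk), fun a b hk => y1 (pz_kbr hk), ?_, ?_⟩
    · rintro c a b ⟨i, j, q, hS, hc, hB, _⟩
      exact alt_isB hS halt hB
    · rintro ⟨i, j, q, c, a, hS, hc, hB, _⟩
      exact alt_isB hS halt hB
  · intro c c' h
    have h2 := p2_ka h
    exact ⟨fun c hk => x4 (pzp_kah hk) h2, fun c a b hk => (x3 (pp_kb hk)).2 h2,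
      fun a b hk => (x2 (pz_kbr hk)).2.2 h2, fun c a b hk => (x1 (pn_kba hk)).2.2.2 h2,
      fun hk => (x1 (pn_kiso hk)).2.2.2 h2⟩
  · intro c h
    have h2 := pzp_kah h
    exact ⟨fun c a b hk => (x3 (pp_kb hk)).1 h2, fun a b hk => (x2 (pz_kbr hk)).2.1 h2,
      fun c a b hk => (x1 (pn_kba hk)).2.2.1 h2, fun hk => (x1 (pn_kiso hk)).2.2.1 h2⟩
  · intro c a b h
    have h2 := pp_kb h
    exact ⟨fun a b hk => (x2 (pz_kbr hk)).1 h2, fun c a b hk => (x1 (pn_kba hk)).2.1 h2,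
      fun hk => (x1 (pn_kiso hk)).2.1 h2⟩
  · intro a b h
    have h2 := pz_kbr h
    exact ⟨fun c a b hk => (x1 (pn_kba hk)).1 h2, fun hk => (x1 (pn_kiso hk)).1 h2⟩
  · intro c a b h
    exact kba_kiso h
  · intro c a b c' a' b' h h'
    exact kb_uniq h h'
  · intro c d c' d' h h'
    exact ka_uniq h h'
  · rintro (h | ⟨c, a, b, h⟩ | h)
    · exact ⟨h.acute, h.lt⟩
    · obtain ⟨i, j, q, hS, hc, hB, h1, h2, h3, h4, _⟩ := h
      exact ⟨h2, h4⟩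
    · obtain ⟨i, j, q, c, a, hS, hc, hB, h1, h2, h3, h4, _⟩ := h
      exact ⟨h2, h4⟩
  · rintro h ⟨ha, hl⟩
    rcases h with h | ⟨c, c', h⟩ | ⟨c, h⟩ | ⟨c, a, b, h⟩ | ⟨a, b, h⟩
    · rw [h.len] at hl
      exact lt_irrefl _ hl
    · obtain ⟨i, j, k, hS, hc, hA⟩ := h
      exact not_acute_of_nonneg hS hc (by rw [hA.ij]; exact hA.pos.le) ha
    · obtain ⟨i, j, k, hS, hc, hi, hj, hk, h1, h2, _⟩ := h
      exact not_acute_of_nonneg hS hc (by rw [h1]; exact h2.le) ha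
    · obtain ⟨i, j, q, hS, hc, hB, hp⟩ := h
      exact not_acute_of_nonneg hS hc (by rw [hB.ij]; exact hp.le) ha
    · obtain ⟨i, j, q, hS, hc, hB⟩ := h
      exact not_acute_of_nonneg hS hc (by rw [hB.ij]) ha

end Pool.Agent.XQ.H99
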